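import Mathlib

/-!
# Perfect cones spanned by `g` independent rank-one forms need not be basic

For every `g ≥ 21` we exhibit linearly independent `v₁, …, v_g ∈ ℤ^g` and a positive definite
form `Q` with `Min(Q) = {±v₁, …, ±v_g}` such that `p(v₁), …, p(v_g)` cannot be extended to a
`ℤ`-basis of `Sym²(ℤ^g)`.

The lattice is `ℤ^g + ½ D`, with `D` the binary `[21,11,5]` code obtained by puncturing the
self-dual `[22,11,6]` code.  It contains its dual, so `½ ∑_{i < 21} p(v_i)` is integral.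
-/

namespace Pool.Agent.Results.MP_aa1cdf_co.NotBasicFrom21

open Matrix Finset

/-- The rank-one integral symmetric matrix `p(v) = v vᵀ`. -/
def p {g : ℕ} (v : Fin g → ℤ) : Matrix (Fin g) (Fin g) ℤ := vecMulVec v v

/-- The lattice `Sym²(ℤ^g)` of integral symmetric `g × g` matrices. -/
def Sym2 (g : ℕ) : Submodule ℤ (Matrix (Fin g) (Fin g) ℤ) where
  carrier := {M | M.IsSymm}
  zero_mem' := Matrix.isSymm_zero
  add_mem' := fun ha hb => Matrix.IsSymm.add ha hb
  smul_mem' := fun c _ hM => Matrix.IsSymm.smul hM c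

/-- The value at the integer vector `w` of the quadratic form with matrix `Q`. -/
def formVal {g : ℕ} (Q : Matrix (Fin g) (Fin g) ℝ) (w : Fin g → ℤ) : ℝ :=
  (fun i => (w i : ℝ)) ⬝ᵥ (Q *ᵥ fun i => (w i : ℝ))

/-- `Min(Q)`: the nonzero integer vectors at which `Q` attains its minimum over the nonzero
integer vectors. -/
def MinVec {g : ℕ} (Q : Matrix (Fin g) (Fin g) ℝ) : Set (Fin g → ℤ) :=
  {w | w ≠ 0 ∧ ∀ u : Fin g → ℤ, u ≠ 0 → formVal Q w ≤ formVal Q u}

/-- The matrices `p(v₁), …, p(v_k)` can be extended to a `ℤ`-basis of `Sym²(ℤ^g)`. -/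
def ExtendsToBasis {g k : ℕ} (v : Fin k → Fin g → ℤ) : Prop :=
  ∃ (ι : Type) (b : Module.Basis ι ℤ (Sym2 g)),
    ∀ i, ∃ j, ((b j : Sym2 g) : Matrix (Fin g) (Fin g) ℤ) = p (v i)

/-! ### The code -/

/-- Rows of the non-systematic part of the generator matrix, as bit masks (bits 11 to 20). -/
def mask (i : ℕ) : ℕ :=
  [1527808, 651264, 464896, 1939456, 563200, 1466368, 1009664, 1931264, 892928, 737280,
    1167360].getD i 0

/-- The code block. -/
def B (i k : ℕ) : ℤ := if (mask i).testBit k then 1 else 0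

/-- The vectors `v_i`. -/
def vN (i k : ℕ) : ℤ := (if i = k then (if i < 11 then 2 else 1) else 0) - B i k

/-- Twice the inverse matrix. -/
def uN (i k : ℕ) : ℤ := (if i = k then (if i < 11 then 1 else 2) else 0) + B i k

theorem mask_large (i : ℕ) (hi : 11 ≤ i) : mask i = 0 := by
  unfold mask
  apply List.getD_eq_default
  exact hi

theorem mask_bound : ∀ i < 11, mask i < 2 ^ 21 := by decide

theorem mask_low : ∀ i < 11, ∀ k < 11, (mask i).testBit k = false := by decide

theorem B_of_ge (i k : ℕ) (hi : 11 ≤ i) : B i k = 0 := by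
  simp [B, mask_large i hi]

theorem B_of_lt (i k : ℕ) (hk : k < 11) : B i k = 0 := by
  by_cases hi : i < 11
  · simp [B, mask_low i hi k hk]
  · exact B_of_ge i k (by omega)

theorem B_of_large (i k : ℕ) (hk : 21 ≤ k) : B i k = 0 := by
  by_cases hi : i < 11
  · have h1 : (mask i).testBit k = false := by
      apply Nat.testBit_lt_two_pow
      calc mask i < 2 ^ 21 := mask_bound i hi
        _ ≤ 2 ^ k := Nat.pow_le_pow_right (by norm_num) hk
    simp [B, h1]
  · exact B_of_ge i k (by omega)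

/-- Generator rows. -/
def gen (i : ℕ) : ℕ := 2 ^ i ^^^ mask i

/-- Weight on the first 21 bits. -/
def pc (x : ℕ) : ℕ := ∑ j ∈ range 21, (x.testBit j).toNat

/-- The exhaustive weight check. -/
def chk : ℕ → ℕ → Bool → Bool
  | 0, acc, nz => !nz || decide (5 ≤ pc acc)
  | n + 1, acc, nz => chk n acc nz && chk n (acc ^^^ gen n) true

theorem chk_true : chk 11 0 false = true := by decide +kernel

/-- The code word attached to an integer sequence. -/
def word (w : ℕ → ℤ) : ℕ → ℕ
  | 0 => 0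
  | n + 1 => word w n ^^^ (if w n % 2 = 1 then gen n else 0)

theorem chk_sound (w : ℕ → ℤ) : ∀ n acc nz, chk n acc nz = true →
    (nz = true ∨ ∃ i < n, w i % 2 = 1) → 5 ≤ pc (acc ^^^ word w n) := by
  intro n
  induction n with
  | zero =>
    intro acc nz h1 h2
    rcases h2 with h2 | ⟨i, hi, _⟩
    · simp only [chk, h2, Bool.not_true, Bool.false_or, decide_eq_true_eq] at h1
      simpa [word] using h1
    · omega
  | succ n ih =>
    intro acc nz h1 h2
    simp only [chk, Bool.and_eq_true] at h1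
    by_cases hw : w n % 2 = 1
    · have h3 := ih (acc ^^^ gen n) true h1.2 (Or.inl rfl)
      have h4 : acc ^^^ word w (n + 1) = acc ^^^ gen n ^^^ word w n := by
        simp only [word, hw, if_true]
        rw [Nat.xor_assoc, Nat.xor_comm (gen n)]
      rw [h4]; exact h3
    · have h3 := ih acc nz h1.1 (by
        rcases h2 with h2 | ⟨i, hi, h2⟩
        · exact Or.inl h2
        · refine Or.inr ⟨i, ?_, h2⟩
          rcases Nat.lt_succ_iff_lt_or_eq.mp hi with h | h
          · exact h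
          · subst h; exact absurd h2 hw)
      have h4 : acc ^^^ word w (n + 1) = acc ^^^ word w n := by
        simp [word, hw]
      rw [h4]; exact h3

theorem word_testBit (w : ℕ → ℤ) (j : ℕ) : ∀ n,
    ((word w n).testBit j = true ↔ (∑ i ∈ range n, w i * ((gen i).testBit j).toNat) % 2 = 1) := by
  intro n
  induction n with
  | zero => simp [word]
  | succ n ih =>
    rw [Finset.sum_range_succ]
    by_cases hw : w n % 2 = 1
    · simp only [word, hw, if_true, Nat.testBit_xor]
      cases h1 : (word w n).testBit j <;> cases h2 : (gen n).testBit j <;>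
        simp [h1] at ih ⊢ <;> omega
    · simp only [word, hw, if_false, Nat.xor_zero]
      rw [ih]
      cases h2 : (gen n).testBit j <;> simp <;> omega

/-! ### The matrices -/

/-- The matrix with rows `v_i`. -/
def V (g : ℕ) : Matrix (Fin g) (Fin g) ℤ := Matrix.of fun i k => vN i k

/-- Twice the inverse of `V`. -/
def U (g : ℕ) : Matrix (Fin g) (Fin g) ℤ := Matrix.of fun i k => uN i k

/-- The code block as a matrix. -/
def Bm (g : ℕ) : Matrix (Fin g) (Fin g) ℤ := Matrix.of fun i k => B i k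

/-- Diagonal of `V`. -/
def dv (g : ℕ) : Fin g → ℤ := fun i => if (i : ℕ) < 11 then 2 else 1

/-- Diagonal of `U`. -/
def du (g : ℕ) : Fin g → ℤ := fun i => if (i : ℕ) < 11 then 1 else 2

theorem V_eq (g : ℕ) : V g = diagonal (dv g) - Bm g := by
  ext i k
  by_cases h : i = k
  · subst h; simp [V, vN, Bm, dv]
  · have h' : (i : ℕ) ≠ k := fun h'' => h (Fin.ext h'')
    simp [V, vN, Bm, h, h']

theorem U_eq (g : ℕ) : U g = diagonal (du g) + Bm g := by
  ext i k
  by_cases h : i = k
  · subst h; simp [U, uN, Bm, du]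
  · have h' : (i : ℕ) ≠ k := fun h'' => h (Fin.ext h'')
    simp [U, uN, Bm, h, h']

theorem Bm_mul_Bm (g : ℕ) : Bm g * Bm g = 0 := by
  ext i k
  simp only [Matrix.mul_apply, Bm, Matrix.of_apply, Matrix.zero_apply]
  apply Finset.sum_eq_zero
  intro j _
  by_cases hj : (j : ℕ) < 11
  · rw [B_of_lt i j hj, zero_mul]
  · rw [B_of_ge j k (by omega), mul_zero]

theorem du_mul_Bm (g : ℕ) : diagonal (du g) * Bm g = Bm g := by
  ext i k
  simp only [Matrix.diagonal_mul, Bm, Matrix.of_apply, du]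
  by_cases hi : (i : ℕ) < 11
  · simp [hi]
  · rw [B_of_ge i k (by omega), mul_zero]

theorem Bm_mul_dv (g : ℕ) : Bm g * diagonal (dv g) = Bm g := by
  ext i k
  simp only [Matrix.mul_diagonal, Bm, Matrix.of_apply, dv]
  by_cases hk : (k : ℕ) < 11
  · rw [B_of_lt i k hk, zero_mul]
  · simp [hk]

theorem dv_mul_Bm (g : ℕ) : diagonal (dv g) * Bm g = 2 • Bm g := by
  ext i k
  simp only [Matrix.diagonal_mul, Bm, Matrix.of_apply, dv, Matrix.smul_apply]
  by_cases hi : (i : ℕ) < 11
  · simp [hi]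
  · rw [B_of_ge i k (by omega)]; simp

theorem Bm_mul_du (g : ℕ) : Bm g * diagonal (du g) = 2 • Bm g := by
  ext i k
  simp only [Matrix.mul_diagonal, Bm, Matrix.of_apply, du, Matrix.smul_apply]
  by_cases hk : (k : ℕ) < 11
  · rw [B_of_lt i k hk]; simp
  · simp [hk, mul_comm]

theorem du_mul_dv (g : ℕ) : (diagonal (du g) * diagonal (dv g) : Matrix (Fin g) (Fin g) ℤ)
    = 2 • (1 : Matrix (Fin g) (Fin g) ℤ) := by
  rw [Matrix.diagonal_mul_diagonal, ← Matrix.diagonal_one, ← Matrix.diagonal_smul]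
  congr 1
  ext i
  simp only [du, dv, Pi.smul_apply]
  split <;> simp

theorem U_mul_V (g : ℕ) : U g * V g = 2 • (1 : Matrix (Fin g) (Fin g) ℤ) := by
  rw [U_eq, V_eq, Matrix.add_mul, Matrix.mul_sub, Matrix.mul_sub, du_mul_Bm, Bm_mul_dv,
    Bm_mul_Bm, du_mul_dv]
  simp

theorem V_mul_U (g : ℕ) : V g * U g = 2 • (1 : Matrix (Fin g) (Fin g) ℤ) := by
  rw [U_eq, V_eq, Matrix.sub_mul, Matrix.mul_add, Matrix.mul_add, dv_mul_Bm, Bm_mul_du,
    Bm_mul_Bm, Matrix.diagonal_mul_diagonal]
  have h := du_mul_dv g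
  rw [Matrix.diagonal_mul_diagonal] at h
  have h2 : (fun i => dv g i * du g i) = fun i => du g i * dv g i := by
    ext i; ring
  rw [h2, h]
  simp

/-- The coordinates of `w`, doubled. -/
def y {g : ℕ} (w : Fin g → ℤ) : Fin g → ℤ := w ᵥ* U g

theorem y_apply {g : ℕ} (w : Fin g → ℤ) (k : Fin g) : y w k = ∑ i, w i * uN i k := rfl

theorem y_vecMul {g : ℕ} (z : Fin g → ℤ) : y (z ᵥ* V g) = 2 • z := by
  unfold y
  rw [Matrix.vecMul_vecMul, V_mul_U, Matrix.vecMul_smul, Matrix.vecMul_one]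

theorem vecMul_of_y {g : ℕ} (w z : Fin g → ℤ) (h : y w = 2 • z) : w = z ᵥ* V g := by
  have h1 : (y w) ᵥ* V g = 2 • w := by
    unfold y
    rw [Matrix.vecMul_vecMul, U_mul_V, Matrix.vecMul_smul, Matrix.vecMul_one]
  rw [h, Matrix.smul_vecMul] at h1
  ext i
  have h2 := congrFun h1 i
  simp only [Pi.smul_apply, nsmul_eq_mul, Nat.cast_ofNat] at h2
  omega

theorem uN_even (i k : ℕ) (hi : 11 ≤ i) : uN i k % 2 = 0 := by
  unfold uN
  rw [B_of_ge i k hi]
  split <;> simp [Nat.not_lt.mpr hi]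

theorem uN_small : ∀ i < 11, ∀ k < 21, uN i k = ((gen i).testBit k).toNat := by decide

/-- Even case. -/
theorem even_case {g : ℕ} (w : Fin g → ℤ) (h : ∀ i : Fin g, (i : ℕ) < 11 → w i % 2 = 0) :
    ∃ z : Fin g → ℤ, y w = 2 • z := by
  have h1 : ∀ k, (2 : ℤ) ∣ y w k := by
    intro k
    rw [y_apply]
    apply Finset.dvd_sum
    intro i _
    by_cases hi : (i : ℕ) < 11
    · exact Dvd.dvd.mul_right (Int.dvd_of_emod_eq_zero (h i hi)) _
    · exact Dvd.dvd.mul_left (Int.dvd_of_emod_eq_zero (uN_even i k (by omega))) _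
  choose z hz using h1
  refine ⟨z, ?_⟩
  ext k
  simp [hz k]

/-- Extension by zero to all naturals. -/
def ext0 {g : ℕ} (w : Fin g → ℤ) : ℕ → ℤ := fun i => if h : i < g then w ⟨i, h⟩ else 0

theorem ext0_coe {g : ℕ} (w : Fin g → ℤ) (i : Fin g) : ext0 w i = w i := by
  simp [ext0]

/-- The doubled coordinates, on all naturals. -/
def yN {g : ℕ} (w : Fin g → ℤ) (k : ℕ) : ℤ := ∑ i ∈ range g, ext0 w i * uN i k

theorem y_eq_yN {g : ℕ} (w : Fin g → ℤ) (k : Fin g) : y w k = yN w k := by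
  rw [y_apply, yN, ← Fin.sum_univ_eq_sum_range (fun i => ext0 w i * uN i k)]
  simp only [ext0_coe]

theorem yN_parity {g : ℕ} (hg : 21 ≤ g) (w : Fin g → ℤ) (k : ℕ) (hk : k < 21) :
    yN w k % 2 = (∑ i ∈ range 11, ext0 w i * ((gen i).testBit k).toNat) % 2 := by
  have h1 : yN w k = ∑ i ∈ range 11, ext0 w i * uN i k + ∑ i ∈ Ico 11 g, ext0 w i * uN i k := by
    rw [yN, ← Finset.sum_range_add_sum_Ico _ (show 11 ≤ g by omega)]
  have h2 : (2 : ℤ) ∣ ∑ i ∈ Ico 11 g, ext0 w i * uN i k := by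
    apply Finset.dvd_sum
    intro i hi
    exact Dvd.dvd.mul_left (Int.dvd_of_emod_eq_zero (uN_even i k (Finset.mem_Ico.mp hi).1)) _
  have h3 : ∑ i ∈ range 11, ext0 w i * uN i k =
      ∑ i ∈ range 11, ext0 w i * ((gen i).testBit k).toNat := by
    apply Finset.sum_congr rfl
    intro i hi
    rw [uN_small i (Finset.mem_range.mp hi) k hk]
  rw [h1, h3]
  omega

/-- Odd case. -/
theorem odd_case {g : ℕ} (hg : 21 ≤ g) (w : Fin g → ℤ)
    (h : ∃ i : Fin g, (i : ℕ) < 11 ∧ w i % 2 = 1) : 5 ≤ ∑ k, y w k ^ 2 := by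
  have h1 : 5 ≤ pc (word (ext0 w) 11) := by
    have := chk_sound (ext0 w) 11 0 false chk_true (Or.inr (by
      obtain ⟨i, hi, hw⟩ := h
      exact ⟨i, hi, by rw [ext0_coe]; exact hw⟩))
    simpa using this
  have h2 : ∑ k, y w k ^ 2 = ∑ k ∈ range g, yN w k ^ 2 := by
    rw [← Fin.sum_univ_eq_sum_range (fun k => yN w k ^ 2)]
    simp only [y_eq_yN]
  have h3 : ∑ k ∈ range 21, yN w k ^ 2 ≤ ∑ k ∈ range g, yN w k ^ 2 := by
    apply Finset.sum_le_sum_of_subset_of_nonneg
    · exact Finset.range_mono hg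
    · intro i _ _; positivity
  have h4 : ((pc (word (ext0 w) 11) : ℕ) : ℤ) ≤ ∑ k ∈ range 21, yN w k ^ 2 := by
    unfold pc
    push_cast
    apply Finset.sum_le_sum
    intro k hk
    have hk' := Finset.mem_range.mp hk
    cases h5 : (word (ext0 w) 11).testBit k
    · simp only [Bool.toNat_false, Nat.cast_zero]; positivity
    · have h6 := (word_testBit (ext0 w) k 11).mp h5
      rw [← yN_parity hg w k hk'] at h6
      have h7 : yN w k ≠ 0 := by
        intro h8; rw [h8] at h6; simp at h6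
      have h8 : 0 < yN w k ^ 2 := by positivity
      simp only [Bool.toNat_true, Nat.cast_one]
      omega
  rw [h2]
  have h5 : (5 : ℤ) ≤ ((pc (word (ext0 w) 11) : ℕ) : ℤ) := by exact_mod_cast h1
  linarith

/-! ### The form -/

/-- The real matrix of the form. -/
noncomputable def Q (g : ℕ) : Matrix (Fin g) (Fin g) ℝ :=
  (U g).map (Int.cast : ℤ → ℝ) * ((U g).map (Int.cast : ℤ → ℝ))ᵀ

theorem Ur_mul_Vr (g : ℕ) : (U g).map (Int.cast : ℤ → ℝ) * (V g).map (Int.cast : ℤ → ℝ)
    = 2 • (1 : Matrix (Fin g) (Fin g) ℝ) := by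
  ext i j
  have h := congrFun (congrFun (U_mul_V g) i) j
  rw [Matrix.mul_apply, Matrix.smul_apply, Matrix.one_apply] at h
  rw [Matrix.mul_apply, Matrix.smul_apply, Matrix.one_apply]
  simp only [Matrix.map_apply]
  have h2 : ((∑ k, U g i k * V g k j : ℤ) : ℝ) = ((2 • (if i = j then 1 else 0 : ℤ) : ℤ) : ℝ) := by
    rw [h]
  push_cast at h2
  rw [h2]
  split_ifs <;> simp

theorem Ur_injective (g : ℕ) : Function.Injective ((U g).map (Int.cast : ℤ → ℝ)).vecMul := by
  intro a b hab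
  have h1 := congrArg (fun x => x ᵥ* (V g).map (Int.cast : ℤ → ℝ)) hab
  simp only [Matrix.vecMul_vecMul, Ur_mul_Vr, Matrix.vecMul_smul, Matrix.vecMul_one] at h1
  ext i
  have h2 := congrFun h1 i
  simp only [Pi.smul_apply, nsmul_eq_mul, Nat.cast_ofNat] at h2
  linarith

theorem Q_posDef (g : ℕ) : (Q g).PosDef := by
  have h := Matrix.PosDef.mul_conjTranspose_self _ (Ur_injective g)
  rwa [Matrix.conjTranspose_eq_transpose_of_trivial] at h

theorem formVal_Q {g : ℕ} (w : Fin g → ℤ) : formVal (Q g) w = ((∑ k, y w k ^ 2 : ℤ) : ℝ) := by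
  unfold formVal Q
  rw [← Matrix.mulVec_mulVec, Matrix.dotProduct_mulVec, Matrix.mulVec_transpose]
  simp only [dotProduct, Matrix.vecMul, Matrix.map_apply, y]
  push_cast
  apply Finset.sum_congr rfl
  intro k _
  ring

theorem sq_sum_pos {g : ℕ} (z : Fin g → ℤ) (hz : z ≠ 0) : 1 ≤ ∑ k, z k ^ 2 := by
  obtain ⟨i, hi⟩ := Function.ne_iff.mp hz
  have h1 : z i ^ 2 ≤ ∑ k, z k ^ 2 :=
    Finset.single_le_sum (f := fun k => z k ^ 2) (fun k _ => by positivity) (Finset.mem_univ i)
  have h2 : 0 < z i ^ 2 := by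
    have : z i ≠ 0 := hi
    positivity
  omega

theorem sq_sum_one {g : ℕ} (z : Fin g → ℤ) (hz : ∑ k, z k ^ 2 = 1) :
    ∃ i, z = Pi.single i 1 ∨ z = -Pi.single i 1 := by
  have hne : z ≠ 0 := by
    rintro rfl
    simp at hz
  obtain ⟨i, hi⟩ := Function.ne_iff.mp hne
  have hi' : z i ≠ 0 := hi
  have h2 : 0 < z i ^ 2 := by positivity
  have h3 := Finset.add_sum_erase Finset.univ (fun k => z k ^ 2) (Finset.mem_univ i)
  rw [hz] at h3
  have h4 : 0 ≤ ∑ x ∈ Finset.univ.erase i, z x ^ 2 := Finset.sum_nonneg fun k _ => by positivity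
  have h5 : ∑ x ∈ Finset.univ.erase i, z x ^ 2 = 0 := by omega
  have h6 : z i ^ 2 = 1 := by omega
  have h7 : ∀ k, k ≠ i → z k = 0 := by
    intro k hk
    have := (Finset.sum_eq_zero_iff_of_nonneg (fun k _ => by positivity)).mp h5 k
      (Finset.mem_erase.mpr ⟨hk, Finset.mem_univ k⟩)
    exact pow_eq_zero_iff (two_ne_zero) |>.mp this
  refine ⟨i, ?_⟩
  rcases (show z i = 1 ∨ z i = -1 from by
      have h8 : (z i - 1) * (z i + 1) = 0 := by ring_nf; omega
      rcases mul_eq_zero.mp h8 with h | h <;> omega) with h | h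
  · left
    ext k
    by_cases hk : k = i
    · subst hk; simp [h]
    · simp [h7 k hk, hk]
  · right
    ext k
    by_cases hk : k = i
    · subst hk; simp [h]
    · simp [h7 k hk, hk]

theorem row_eq {g : ℕ} (i : Fin g) : V g i = (Pi.single i 1 : Fin g → ℤ) ᵥ* V g := by
  rw [Matrix.single_one_vecMul]
  rfl

theorem y_row {g : ℕ} (i : Fin g) : y (V g i) = 2 • (Pi.single i 1 : Fin g → ℤ) := by
  rw [row_eq, y_vecMul]

theorem sum_single_sq {g : ℕ} (i : Fin g) :
    ∑ k, (2 • (Pi.single i 1 : Fin g → ℤ)) k ^ 2 = 4 := by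
  rw [Finset.sum_eq_single i]
  · simp
  · intro k _ hk; simp [hk]
  · intro h; exact absurd (Finset.mem_univ i) h

theorem val_row {g : ℕ} (i : Fin g) : ∑ k, y (V g i) k ^ 2 = 4 := by
  rw [y_row, sum_single_sq]

theorem parity_cases {g : ℕ} (w : Fin g → ℤ) :
    (∃ i : Fin g, (i : ℕ) < 11 ∧ w i % 2 = 1) ∨ ∀ i : Fin g, (i : ℕ) < 11 → w i % 2 = 0 := by
  by_cases h : ∃ i : Fin g, (i : ℕ) < 11 ∧ w i % 2 = 1
  · exact Or.inl h
  · right
    intro i hi
    by_contra h2
    exact h ⟨i, hi, by omega⟩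

theorem ne_zero_of_two_smul {g : ℕ} {w z : Fin g → ℤ} (hw : w ≠ 0) (h : w = z ᵥ* V g) :
    z ≠ 0 := by
  rintro rfl
  exact hw (by rw [h, Matrix.zero_vecMul])

theorem four_sum {g : ℕ} (z : Fin g → ℤ) : ∑ k, (2 • z) k ^ 2 = 4 * ∑ k, z k ^ 2 := by
  rw [Finset.mul_sum]
  apply Finset.sum_congr rfl
  intro k _
  simp only [Pi.smul_apply, nsmul_eq_mul, Nat.cast_ofNat]
  ring

theorem lower {g : ℕ} (hg : 21 ≤ g) (w : Fin g → ℤ) (hw : w ≠ 0) : 4 ≤ ∑ k, y w k ^ 2 := by
  rcases parity_cases w with h | h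
  · have := odd_case hg w h
    omega
  · obtain ⟨z, hz⟩ := even_case w h
    have h1 := sq_sum_pos z (ne_zero_of_two_smul hw (vecMul_of_y w z hz))
    rw [hz, four_sum]
    omega

theorem minVec_eq {g : ℕ} (hg : 21 ≤ g) :
    MinVec (Q g) = {w | ∃ i, w = V g i ∨ w = -V g i} := by
  ext w
  simp only [MinVec, Set.mem_ofPred_eq]
  constructor
  · rintro ⟨hw, hmin⟩
    have hg0 : 0 < g := by omega
    have hne : V g ⟨0, hg0⟩ ≠ 0 := by
      intro h
      have h1 := val_row (g := g) ⟨0, hg0⟩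
      rw [h] at h1
      simp [y] at h1
    have h1 := hmin _ hne
    rw [formVal_Q, formVal_Q, val_row] at h1
    have h2 : ∑ k, y w k ^ 2 ≤ 4 := by exact_mod_cast h1
    rcases parity_cases w with h | h
    · have := odd_case hg w h
      omega
    · obtain ⟨z, hz⟩ := even_case w h
      have h3 := vecMul_of_y w z hz
      have h4 := sq_sum_pos z (ne_zero_of_two_smul hw h3)
      rw [hz, four_sum] at h2
      obtain ⟨i, hi⟩ := sq_sum_one z (by omega)
      refine ⟨i, ?_⟩
      rcases hi with hi | hi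
      · left; rw [h3, hi, ← row_eq]
      · right; rw [h3, hi, Matrix.neg_vecMul, ← row_eq]
  · rintro ⟨i, hi⟩
    have hval : ∑ k, y w k ^ 2 = 4 := by
      rcases hi with hi | hi
      · rw [hi, val_row]
      · have h1 : y (-V g i) = -y (V g i) := by
          unfold y; rw [Matrix.neg_vecMul]
        rw [hi, h1]
        simp only [Pi.neg_apply, neg_sq]
        exact val_row i
    refine ⟨?_, ?_⟩
    · rintro rfl
      simp [y] at hval
    · intro u hu
      rw [formVal_Q, formVal_Q, hval]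
      have := lower hg u hu
      exact_mod_cast this

theorem linInd (g : ℕ) : LinearIndependent ℤ (fun i => V g i) := by
  rw [Fintype.linearIndependent_iff]
  intro c hc i
  have h1 : c ᵥ* V g = 0 := by
    rw [← hc]
    ext k
    simp [Matrix.vecMul, dotProduct, Finset.sum_apply]
  have h2 := y_vecMul c
  rw [h1] at h2
  have h3 := congrFun h2 i
  simp [y] at h3
  exact h3

/-! ### Failure of basicness -/

theorem vN_large (i k : ℕ) (hi : i < 21) (hk : 21 ≤ k) : vN i k = 0 := by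
  unfold vN
  rw [B_of_large i k hk]
  simp [show i ≠ k by omega]

theorem even_small : ∀ k < 21, ∀ l < 21, (∑ i ∈ range 21, vN i k * vN i l) % 2 = 0 := by
  decide +kernel

theorem even_all (k l : ℕ) : (∑ i ∈ range 21, vN i k * vN i l) % 2 = 0 := by
  by_cases hk : k < 21
  · by_cases hl : l < 21
    · exact even_small k hk l hl
    · rw [Finset.sum_eq_zero]
      · rfl
      · intro i hi
        rw [vN_large i l (Finset.mem_range.mp hi) (by omega), mul_zero]
  · rw [Finset.sum_eq_zero]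
    · rfl
    · intro i hi
      rw [vN_large i k (Finset.mem_range.mp hi) (by omega), zero_mul]

/-- Half the sum of the first 21 rank-one matrices. -/
def half (g : ℕ) : Sym2 g :=
  ⟨Matrix.of fun k l => (∑ i ∈ range 21, vN i k * vN i l) / 2, by
    show Matrix.IsSymm _
    ext k l
    simp only [Matrix.transpose_apply, Matrix.of_apply]
    congr 1
    apply Finset.sum_congr rfl
    intro i _
    ring⟩

/-- The rank-one matrices as elements of the lattice. -/
def P (g : ℕ) (i : Fin g) : Sym2 g :=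
  ⟨p (V g i), by
    show Matrix.IsSymm _
    ext k l
    simp [p, vecMulVec_apply, mul_comm]⟩

theorem two_half {g : ℕ} (hg : 21 ≤ g) :
    (2 : ℤ) • half g = ∑ i : Fin g, (if (i : ℕ) < 21 then (1 : ℤ) else 0) • P g i := by
  apply Subtype.ext
  rw [Submodule.coe_smul, Submodule.coe_sum]
  ext k l
  rw [Matrix.sum_apply]
  simp only [Submodule.coe_smul, Matrix.smul_apply, half, P, p, Matrix.of_apply, vecMulVec_apply,
    smul_eq_mul]
  have h1 : ∑ i : Fin g, (if (i : ℕ) < 21 then (1 : ℤ) else 0) * (V g i k * V g i l) =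
      ∑ i ∈ range g, (if i < 21 then (1 : ℤ) else 0) * (vN i k * vN i l) := by
    rw [← Fin.sum_univ_eq_sum_range
      (fun i => (if i < 21 then (1 : ℤ) else 0) * (vN i k * vN i l))]
    rfl
  have h2 : ∑ i ∈ range g, (if i < 21 then (1 : ℤ) else 0) * (vN i k * vN i l) =
      ∑ i ∈ range 21, vN i k * vN i l := by
    rw [← Finset.sum_subset (Finset.range_mono hg)]
    · apply Finset.sum_congr rfl
      intro i hi
      simp [Finset.mem_range.mp hi]
    · intro i _ hi
      have : ¬ i < 21 := fun h => hi (Finset.mem_range.mpr h)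
      simp [this]
  rw [h1, h2]
  have := even_all k l
  omega

theorem p_injective {g : ℕ} (i k : Fin g) (h : p (V g i) = p (V g k)) : i = k := by
  have h1 : ∀ j : Fin g, (U g)ᵀ * p (V g j) * U g = vecMulVec (y (V g j)) (y (V g j)) := by
    intro j
    unfold p y
    rw [Matrix.mul_vecMulVec, Matrix.vecMulVec_mul, Matrix.mulVec_transpose]
  have h2 : vecMulVec (y (V g i)) (y (V g i)) = vecMulVec (y (V g k)) (y (V g k)) := by
    rw [← h1, ← h1, h]
  have h3 := congrFun (congrFun h2 i) i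
  rw [vecMulVec_apply, vecMulVec_apply, y_row, y_row] at h3
  by_contra hik
  simp [hik] at h3

theorem not_extends {g : ℕ} (hg : 21 ≤ g) : ¬ ExtendsToBasis (fun i => V g i) := by
  rintro ⟨ι, b, hb⟩
  choose f hf using hb
  have hf' : ∀ i, b (f i) = P g i := fun i => Subtype.ext (hf i)
  have hinj : Function.Injective f := by
    intro i k hik
    apply p_injective
    rw [← hf i, ← hf k, hik]
  have hg0 : 0 < g := by omega
  have h1 := congrArg (fun x => b.repr x (f ⟨0, hg0⟩)) (two_half hg)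
  simp only [map_smul, map_sum, Finsupp.smul_apply, Finsupp.finsetSum_apply, smul_eq_mul,
    ← hf', Module.Basis.repr_self] at h1
  rw [Finset.sum_eq_single ⟨0, hg0⟩] at h1
  · simp at h1
    omega
  · intro i _ hi
    rw [Finsupp.single_eq_of_ne]
    · simp
    · intro h; exact hi (hinj h.symm)
  · intro h; exact absurd (Finset.mem_univ _) h

/-- For every `g ≥ 21` there are linearly independent `v₁, …, v_g ∈ ℤ^g` and a positive definite
`Q` with `Min(Q) = {±v₁, …, ±v_g}` such that `p(v₁), …, p(v_g)` do not extend to a `ℤ`-basis of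
`Sym²(ℤ^g)`: the perfect cone they span is not basic. -/
theorem result : ∀ g : ℕ, 21 ≤ g →
    ∃ (v : Fin g → Fin g → ℤ) (Q : Matrix (Fin g) (Fin g) ℝ),
      LinearIndependent ℤ v ∧ Q.PosDef ∧ MinVec Q = {w | ∃ i, w = v i ∨ w = -v i} ∧
        ¬ ExtendsToBasis v := by
  intro g hg
  exact ⟨fun i => V g i, Q g, linInd g, Q_posDef g, minVec_eq hg, not_extends hg⟩

end Pool.Agent.Results.MP_aa1cdf_co.NotBasicFrom21
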